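import Pool.Agent.Helper25_CN3.Stmts

/-!
Squad CN3 (MP_6d18f4_al, Q2), module V_HYP: the hyperbolic plane.
-/

noncomputable section

namespace Pool.Agent.CN3.H21

open Pool.Agent.H25Cong Pool.Agent.CON Pool.Agent.CN2 Pool.Agent.CN3

/-- V6: the hyperbolic plane -/
theorem v_hyp (hM : V_MEM) : V_HYP := by
  intro n a G hG hH
  have hsym := hG.sym
  unfold symB at hsym
  simp only [Bool.and_eq_true, decide_eq_true_eq, List.all_eq_true] at hsym
  obtain ⟨⟨⟨hlen, hrow⟩, -⟩, -⟩ := hsym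
  unfold hypB at hH
  simp only [Bool.and_eq_true, Bool.or_eq_true, decide_eq_true_eq, List.all_eq_true,
    List.mem_range] at hH
  obtain ⟨⟨⟨⟨h00, h11⟩, h01⟩, h10⟩, hk⟩ := hH
  have hn : 1 ≤ n := by
    by_contra hn
    have hn0 : n = 0 := by omega
    subst hn0
    have hr : (G.getD 0 []).length = 1 := by
      rw [List.getD_eq_getElem _ _ (by omega)]
      exact hrow _ (List.getElem_mem _)
    have : ent G 0 1 = 0 := by
      unfold ent
      rw [List.getD_eq_getElem?_getD, List.getElem?_eq_none (by omega)]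
      rfl
    omega
  have e0 : av a 0 = a ⟨0, by omega⟩ := by
    unfold av; rw [dif_pos (by omega : 0 < n + 1)]
  have e1 : av a 1 = a ⟨1, by omega⟩ := by
    unfold av; rw [dif_pos (by omega : 1 < n + 1)]
  have g : ∀ i j : ℕ, i < n + 1 → j < n + 1 → B (av a i) (av a j) = ent G i j := by
    intro i j hi hj
    unfold av
    rw [dif_pos hi, dif_pos hj, hG.gram]
  have b00 : B (av a 0) (av a 0) = 0 := by rw [g 0 0 (by omega) (by omega), h00]; simp
  have b11 : B (av a 1) (av a 1) = 0 := by rw [g 1 1 (by omega) (by omega), h11]; simp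
  have b01 : B (av a 0) (av a 1) = -1 := by rw [g 0 1 (by omega) (by omega), h01]; simp
  have b10 : B (av a 1) (av a 0) = -1 := by rw [g 1 0 (by omega) (by omega), h10]; simp
  have bk : ∀ k : ℕ, 2 ≤ k → B (av a k) (av a 0) = 0 ∧ B (av a k) (av a 1) = 0 := by
    intro k hk2
    by_cases hkn : k < n + 1
    · rcases hk k (by omega) with h | ⟨⟨⟨h1, h2⟩, h3⟩, h4⟩
      · omega
      · rw [g k 0 hkn (by omega), g k 1 hkn (by omega), h3, h4]; simp
    · have : av a k = 0 := by unfold av; rw [dif_neg hkn]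
      rw [this]
      have hz : ∀ w : V n, B 0 w = 0 := fun w => by
        have := B_smul_left (0 : ℝ) (0 : V n) w
        simpa using this
      exact ⟨hz _, hz _⟩
  refine ⟨hn, b00, b11, b01, bk, ?_⟩
  intro x hx
  obtain ⟨l, hl, rfl⟩ := (hM n a).2.1 x hx
  refine ⟨fun k => l.getD k 0, ?_⟩
  have key : lv a l = ((l.getD 0 0 : ℤ) : ℝ) • av a 0 + ((l.getD 1 0 : ℤ) : ℝ) • av a 1 +
      ∑ k ∈ Finset.Ico 2 (n + 1), ((l.getD k 0 : ℤ) : ℝ) • av a k := by
    have h1 : lv a l = ∑ k ∈ Finset.range (n + 1), ((l.getD k 0 : ℤ) : ℝ) • av a k := by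
      unfold lv
      rw [Finset.sum_range]
      refine Finset.sum_congr rfl fun i _ => ?_
      unfold av
      rw [dif_pos i.2]
    rw [h1, ← Finset.sum_range_add_sum_Ico _ (by omega : 2 ≤ n + 1)]
    rw [Finset.sum_range_succ, Finset.sum_range_succ, Finset.sum_range_zero, zero_add]
  have s1 : B (∑ k ∈ Finset.Ico 2 (n + 1), ((l.getD k 0 : ℤ) : ℝ) • av a k) (av a 1) = 0 := by
    rw [B_sum_left]
    refine Finset.sum_eq_zero fun k hk => ?_
    rw [B_smul_left, (bk k (Finset.mem_Ico.1 hk).1).2, mul_zero]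
  have s0 : B (∑ k ∈ Finset.Ico 2 (n + 1), ((l.getD k 0 : ℤ) : ℝ) • av a k) (av a 0) = 0 := by
    rw [B_sum_left]
    refine Finset.sum_eq_zero fun k hk => ?_
    rw [B_smul_left, (bk k (Finset.mem_Ico.1 hk).1).1, mul_zero]
  refine ⟨key, ?_, ?_⟩
  · rw [key, B_add_left, B_add_left, B_smul_left, B_smul_left, s1, b01, b11]; ring
  · rw [key, B_add_left, B_add_left, B_smul_left, B_smul_left, s0, b00, b10]; ring

end Pool.Agent.CN3.H21
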